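import Pool.Agent.Y716.C.Defs

/-!
# Project C, job C13: almost all systems of forms are smooth complete intersections
-/

set_option autoImplicit false

namespace Pool.Agent.Y697.C13

open Pool.Agent.Y716.C Pool.Agent.Y716.Q MvPolynomial
open scoped Classical

universe u

/-- The forms define a smooth complete intersection: at every common zero over a field of
characteristic zero the Jacobian matrix has full rank. -/
def SmoothS {ι : Type*} [Fintype ι] {s : ℕ} (f : Fin s → MvPolynomial ι ℤ) : Prop :=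
  ∀ (K : Type) [Field K] [CharZero K] (x : ι → K) (l : Fin s → K), x ≠ 0 → l ≠ 0 →
    (∀ j, MvPolynomial.aeval x (f j) = 0) →
    ∃ i, ∑ j, l j * MvPolynomial.aeval x (MvPolynomial.pderiv i (f j)) ≠ 0

section ker

lemma exists_ker {σ τ : Type u} [Fintype σ] [Fintype τ] (h : Fintype.card τ < Fintype.card σ)
    (φ : MvPolynomial σ ℚ →ₐ[ℚ] MvPolynomial τ ℚ) : ∃ D, D ≠ 0 ∧ φ D = 0 := by
  by_contra hne
  push Not at hne
  have hinj : Function.Injective φ := by
    rw [injective_iff_map_eq_zero]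
    intro D hD
    by_contra h0
    exact hne D h0 hD
  have h1 := _root_.trdeg_le_of_injective φ hinj
  rw [MvPolynomial.trdeg_of_isDomain, MvPolynomial.trdeg_of_isDomain, Cardinal.lift_le,
    Cardinal.mk_fintype, Cardinal.mk_fintype] at h1
  have h2 : Fintype.card σ ≤ Fintype.card τ := by exact_mod_cast h1
  omega

lemma sz {σ : Type u} [Fintype σ] [DecidableEq σ] (D : MvPolynomial σ ℚ) (hD : D ≠ 0) : ∃ C : ℝ, 0 ≤ C ∧
    ∀ N : ℕ, (((Fintype.piFinset (fun _ : σ => Finset.Icc (-(N : ℤ)) N)).filter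
      (fun c => eval (fun v => ((c v : ℤ) : ℚ)) D = 0)).card : ℝ) * (2 * N + 1) ≤
      C * ((2 * N + 1 : ℕ) : ℝ) ^ Fintype.card σ := by
  set ε := Fintype.equivFin σ with hε
  set D' : MvPolynomial (Fin (Fintype.card σ)) ℚ := rename ε D with hD'
  have hD'0 : D' ≠ 0 := by
    intro h
    apply hD
    apply rename_injective ε ε.injective
    rw [← hD', h, map_zero]
  refine ⟨D'.totalDegree, Nat.cast_nonneg _, fun N => ?_⟩
  set S : Finset ℚ := (Finset.Icc (-(N : ℤ)) N).image (fun z : ℤ => (z : ℚ)) with hS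
  have hScard : S.card = 2 * N + 1 := by
    rw [hS, Finset.card_image_of_injective _ (fun a b h => by exact_mod_cast h), Int.card_Icc]
    omega
  have h1 := schwartz_zippel_totalDegree hD'0 S
  have h2 : ((Fintype.piFinset (fun _ : σ => Finset.Icc (-(N : ℤ)) N)).filter
      (fun c => eval (fun v => ((c v : ℤ) : ℚ)) D = 0)).card ≤
      ((Fintype.piFinset (fun _ : Fin (Fintype.card σ) => S)).filter
        (fun f => eval f D' = 0)).card := by
    apply Finset.card_le_card_of_injOn (fun c i => ((c (ε.symm i) : ℤ) : ℚ))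
    · intro c hc
      rw [Finset.mem_coe, Finset.mem_filter, Fintype.mem_piFinset] at hc
      rw [Finset.mem_coe, Finset.mem_filter, Fintype.mem_piFinset]
      refine ⟨fun i => ?_, ?_⟩
      · rw [hS, Finset.mem_image]
        exact ⟨_, hc.1 _, rfl⟩
      · rw [hD', eval_rename]
        convert hc.2 using 3
        ext v
        simp
    · intro c _ c' _ h
      ext v
      have := congrFun h (ε v)
      simp only [Equiv.symm_apply_apply] at this
      exact_mod_cast this
  have h3 : (((Fintype.piFinset (fun _ : Fin (Fintype.card σ) => S)).filter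
        (fun f => eval f D' = 0)).card : ℚ≥0) * (2 * N + 1) ≤
        D'.totalDegree * ((2 * N + 1 : ℕ) : ℚ≥0) ^ Fintype.card σ := by
    rw [hScard] at h1
    rw [div_le_div_iff₀ (by positivity) (by positivity)] at h1
    push_cast at h1 ⊢
    exact h1
  have h4 : (((Fintype.piFinset (fun _ : Fin (Fintype.card σ) => S)).filter
        (fun f => eval f D' = 0)).card) * (2 * N + 1) ≤
        D'.totalDegree * (2 * N + 1) ^ Fintype.card σ := by
    exact_mod_cast h3
  have h5 : ((((Fintype.piFinset (fun _ : Fin (Fintype.card σ) => S)).filter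
        (fun f => eval f D' = 0)).card : ℕ) : ℝ) * (2 * N + 1) ≤
        D'.totalDegree * ((2 * N + 1 : ℕ) : ℝ) ^ Fintype.card σ := by
    exact_mod_cast h4
  refine le_trans ?_ h5
  gcongr

end ker

section forms
variable {ι : Type u} [Fintype ι] {s : ℕ}

/-- value of a monomial -/
noncomputable def mv {A : Type*} [CommSemiring A] (x : ι → A) (m : ι →₀ ℕ) : A :=
  ∏ i, x i ^ m i

/-- value of a derivative of a monomial -/
noncomputable def dv {A : Type*} [CommSemiring A] (x : ι → A) (i : ι) (m : ι →₀ ℕ) : A :=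
  mv x (m - Finsupp.single i 1) * (m i : A)

lemma coeff_out {d : ℕ} {f : MvPolynomial ι ℤ} (hf : f.IsHomogeneous d) {m : ι →₀ ℕ}
    (hm : m ∉ mons ι d) : f.coeff m = 0 := by
  by_contra hne
  exact hm (mem_mons.mpr (homog_sum_eq hf hne))

lemma eq_sum {d : ℕ} {f : MvPolynomial ι ℤ} (hf : f.IsHomogeneous d) :
    f = ∑ m ∈ mons ι d, monomial m (f.coeff m) := by
  apply MvPolynomial.ext
  intro m
  rw [coeff_sum]
  simp only [coeff_monomial]
  rw [Finset.sum_ite_eq']
  split_ifs with h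
  · rfl
  · exact coeff_out hf h

lemma aeval_mon {K : Type*} [CommRing K] (x : ι → K) (m : ι →₀ ℕ) (a : ℤ) :
    aeval x (monomial m a) = (a : K) * mv x m := by
  rw [aeval_monomial, eq_intCast, Finsupp.prod_fintype _ _ (fun i => pow_zero _)]
  rfl

lemma aeval_f {K : Type*} [CommRing K] {d : ℕ} {f : MvPolynomial ι ℤ} (hf : f.IsHomogeneous d)
    (x : ι → K) : aeval x f = ∑ m ∈ mons ι d, ((f.coeff m : ℤ) : K) * mv x m := by
  conv_lhs => rw [eq_sum hf]
  rw [map_sum]
  exact Finset.sum_congr rfl fun m _ => aeval_mon x m _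

lemma aeval_df {K : Type*} [CommRing K] {d : ℕ} {f : MvPolynomial ι ℤ} (hf : f.IsHomogeneous d)
    (x : ι → K) (i : ι) :
    aeval x (pderiv i f) = ∑ m ∈ mons ι d, ((f.coeff m : ℤ) : K) * dv x i m := by
  conv_lhs => rw [eq_sum hf]
  rw [map_sum, map_sum]
  refine Finset.sum_congr rfl fun m _ => ?_
  rw [pderiv_monomial, aeval_mon]
  unfold dv
  push_cast
  ring

/-- exponents -/
noncomputable def eA (r : ι) (n : ℕ) : ι →₀ ℕ := Finsupp.single r (n + 2)

/-- exponents -/
noncomputable def eB (r : ι) (n : ℕ) (i : ι) : ι →₀ ℕ :=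
  Finsupp.single r (n + 1) + Finsupp.single i 1

lemma eA_ne {r i : ι} (n n' : ℕ) (h : i ≠ r) : eA r n ≠ eB r n' i := by
  intro h1
  have h2 := DFunLike.congr_fun h1 i
  unfold eA eB at h2
  rw [Finsupp.add_apply, Finsupp.single_eq_of_ne h, Finsupp.single_eq_of_ne h,
    Finsupp.single_eq_same] at h2
  omega

lemma eB_inj {r i i' : ι} (n : ℕ) (h : i ≠ r) (h1 : eB r n i = eB r n i') : i = i' := by
  by_contra hne
  have h2 := DFunLike.congr_fun h1 i
  unfold eB at h2
  rw [Finsupp.add_apply, Finsupp.add_apply, Finsupp.single_eq_of_ne h,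
    Finsupp.single_eq_same, Finsupp.single_eq_of_ne hne] at h2
  omega

lemma eA_mem (r : ι) (n : ℕ) : eA r n ∈ mons ι (n + 2) := by
  rw [mem_mons]
  unfold eA
  rw [Finset.sum_eq_single r]
  · exact Finsupp.single_eq_same
  · intro b _ hb
    exact Finsupp.single_eq_of_ne hb
  · intro h
    exact absurd (Finset.mem_univ _) h

lemma sum_single (r : ι) (n : ℕ) : ∑ k, (Finsupp.single r n : ι →₀ ℕ) k = n := by
  rw [Finset.sum_eq_single r]
  · exact Finsupp.single_eq_same
  · intro b _ hb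
    exact Finsupp.single_eq_of_ne hb
  · intro h
    exact absurd (Finset.mem_univ _) h

lemma eB_mem (r : ι) (n : ℕ) (i : ι) : eB r n i ∈ mons ι (n + 2) := by
  rw [mem_mons]
  unfold eB
  simp only [Finsupp.add_apply]
  rw [Finset.sum_add_distrib, sum_single, sum_single]

lemma mv_single {A : Type*} [CommSemiring A] (x : ι → A) (r : ι) (n : ℕ) (hx : x r = 1) :
    mv x (Finsupp.single r n) = 1 := by
  unfold mv
  refine Finset.prod_eq_one fun i _ => ?_
  by_cases h : i = r
  · rw [h, hx, one_pow]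
  · rw [Finsupp.single_eq_of_ne h, pow_zero]

lemma dv_eA {A : Type*} [CommSemiring A] (x : ι → A) {r i : ι} (n : ℕ) (h : i ≠ r) :
    dv x i (eA r n) = 0 := by
  unfold dv eA
  rw [Finsupp.single_eq_of_ne h, Nat.cast_zero, mul_zero]

lemma dv_eB_ne {A : Type*} [CommSemiring A] (x : ι → A) {r i i' : ι} (n : ℕ) (h : i ≠ r)
    (h' : i ≠ i') : dv x i (eB r n i') = 0 := by
  unfold dv eB
  rw [Finsupp.add_apply, Finsupp.single_eq_of_ne h, Finsupp.single_eq_of_ne h', add_zero,
    Nat.cast_zero, mul_zero]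

lemma dv_eB {A : Type*} [CommSemiring A] (x : ι → A) {r i : ι} (n : ℕ) (h : i ≠ r)
    (hx : x r = 1) : dv x i (eB r n i) = 1 := by
  unfold dv eB
  rw [add_tsub_cancel_right, mv_single x r _ hx, Finsupp.add_apply, Finsupp.single_eq_of_ne h,
    Finsupp.single_eq_same]
  simp

variable (e : Fin s → ℕ) (r : ι) (j0 : Fin s)

/-- the second type of special coefficients -/
def isB (j : Fin s) (m : ι →₀ ℕ) (i : ι) : Prop := i ≠ r ∧ j = j0 ∧ m = eB r (e j0) i

/-- special coefficients -/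
def spec (j : Fin s) (m : ι →₀ ℕ) : Prop := m = eA r (e j) ∨ ∃ i, isB e r j0 j m i

/-- the solution of the second type of equations -/
noncomputable def gB {A : Type*} [CommRing A] (w : Fin s → (ι →₀ ℕ) → A) (x : ι → A)
    (l : Fin s → A) (i : ι) : A :=
  - ∑ j, l j * ∑ m ∈ mons ι (e j + 2), w j m * dv x i m

/-- first step -/
noncomputable def c1 {A : Type*} [CommRing A] (w : Fin s → (ι →₀ ℕ) → A) (x : ι → A)
    (l : Fin s → A) (j : Fin s) (m : ι →₀ ℕ) : A :=
  w j m + ∑ i, if isB e r j0 j m i then gB e w x l i else 0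

/-- second step -/
noncomputable def c2 {A : Type*} [CommRing A] (w : Fin s → (ι →₀ ℕ) → A) (x : ι → A)
    (l : Fin s → A) (j : Fin s) (m : ι →₀ ℕ) : A :=
  c1 e r j0 w x l j m + if m = eA r (e j) then
    - ∑ m' ∈ mons ι (e j + 2), c1 e r j0 w x l j m' * mv x m' else 0

section nat
variable {A B : Type*} [CommRing A] [CommRing B] (g : A →+* B) (w : Fin s → (ι →₀ ℕ) → A)
  (x : ι → A) (l : Fin s → A)

lemma map_mv (m : ι →₀ ℕ) : g (mv x m) = mv (fun i => g (x i)) m := by
  unfold mv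
  rw [map_prod]
  simp only [map_pow]

lemma map_dv (i : ι) (m : ι →₀ ℕ) : g (dv x i m) = dv (fun i => g (x i)) i m := by
  unfold dv
  rw [map_mul, map_mv, map_natCast]

lemma map_gB (i : ι) : g (gB e w x l i) =
    gB e (fun j m => g (w j m)) (fun i => g (x i)) (fun j => g (l j)) i := by
  unfold gB
  simp only [map_neg, map_sum, map_mul, map_dv]

lemma map_c1 (j : Fin s) (m : ι →₀ ℕ) : g (c1 e r j0 w x l j m) =
    c1 e r j0 (fun j m => g (w j m)) (fun i => g (x i)) (fun j => g (l j)) j m := by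
  unfold c1
  rw [map_add, map_sum]
  congr 1
  refine Finset.sum_congr rfl fun i _ => ?_
  split_ifs
  · exact map_gB e g w x l i
  · exact map_zero g

lemma map_c2 (j : Fin s) (m : ι →₀ ℕ) : g (c2 e r j0 w x l j m) =
    c2 e r j0 (fun j m => g (w j m)) (fun i => g (x i)) (fun j => g (l j)) j m := by
  unfold c2
  rw [map_add, map_c1]
  congr 1
  split_ifs
  · simp only [map_neg, map_sum, map_mul, map_mv, map_c1]
  · exact map_zero g

end nat

lemma isB_unique {j : Fin s} {m : ι →₀ ℕ} {i i' : ι} (h : isB e r j0 j m i)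
    (h' : isB e r j0 j m i') : i = i' :=
  eB_inj (e j0) h.1 (h.2.2.symm.trans h'.2.2)

section key
variable {A : Type*} [CommRing A] (c : Fin s → (ι →₀ ℕ) → A)
  (x : ι → A) (l : Fin s → A)

/-- the coefficients that are not special -/
noncomputable def uu : Fin s → (ι →₀ ℕ) → A := fun j m => if spec e r j0 j m then 0 else c j m

lemma decomp (j : Fin s) (m : ι →₀ ℕ) : c j m = uu e r j0 c j m +
    (∑ i, if isB e r j0 j m i then c j m else 0) + (if m = eA r (e j) then c j m else 0) := by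
  unfold uu
  by_cases h1 : m = eA r (e j)
  · have h2 : ∀ i, ¬ isB e r j0 j m i := by
      intro i hi
      exact eA_ne _ _ hi.1 (h1.symm.trans hi.2.2)
    have h3 : spec e r j0 j m := Or.inl h1
    rw [if_pos h3, if_pos h1, Finset.sum_eq_zero (fun i _ => if_neg (h2 i))]
    ring
  · rw [if_neg h1]
    by_cases h2 : ∃ i, isB e r j0 j m i
    · obtain ⟨i, hi⟩ := h2
      have h3 : spec e r j0 j m := Or.inr ⟨i, hi⟩
      rw [if_pos h3, Finset.sum_eq_single i, if_pos hi]
      · ring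
      · intro i' _ hne
        exact if_neg fun h => hne (isB_unique e r j0 h hi)
      · intro h
        exact absurd (Finset.mem_univ _) h
    · have h3 : ¬ spec e r j0 j m := by
        rintro (h | h)
        · exact h1 h
        · exact h2 h
      rw [if_neg h3, Finset.sum_eq_zero (fun i _ => if_neg (fun h => h2 ⟨i, h⟩))]
      ring

lemma gB_eq (hx : x r = 1) (hl : l j0 = 1)
    (hG : ∀ i, ∑ j, l j * ∑ m ∈ mons ι (e j + 2), c j m * dv x i m = 0) (i : ι) (hi : i ≠ r) :
    gB e (uu e r j0 c) x l i = c j0 (eB r (e j0) i) := by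
  have h1 : ∀ j, ∑ m ∈ mons ι (e j + 2), c j m * dv x i m =
      ∑ m ∈ mons ι (e j + 2), uu e r j0 c j m * dv x i m +
      if j = j0 then c j0 (eB r (e j0) i) else 0 := by
    intro j
    have h2 : ∀ m ∈ mons ι (e j + 2), c j m * dv x i m = uu e r j0 c j m * dv x i m +
        if isB e r j0 j m i then c j m else 0 := by
      intro m _
      conv_lhs => rw [decomp e r j0 c j m]
      rw [add_mul, add_mul]
      have h3 : (if m = eA r (e j) then c j m else 0) * dv x i m = 0 := by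
        split_ifs with h
        · rw [h, dv_eA x _ hi, mul_zero]
        · rw [zero_mul]
      rw [h3, add_zero]
      congr 1
      rw [Finset.sum_mul, Finset.sum_eq_single i]
      · split_ifs with h
        · rw [h.2.2, dv_eB x _ hi hx, mul_one]
        · rw [zero_mul]
      · intro i' _ hne
        split_ifs with h
        · rw [h.2.2, dv_eB_ne x _ hi (Ne.symm hne), mul_zero]
        · rw [zero_mul]
      · intro h
        exact absurd (Finset.mem_univ _) h
    rw [Finset.sum_congr rfl h2, Finset.sum_add_distrib]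
    congr 1
    split_ifs with hj
    · subst hj
      rw [Finset.sum_eq_single (eB r (e j) i)]
      · exact if_pos ⟨hi, rfl, rfl⟩
      · intro m _ hne
        exact if_neg fun h => hne h.2.2
      · intro h
        exact absurd (eB_mem r _ i) h
    · exact Finset.sum_eq_zero fun m _ => if_neg fun h => hj h.2.1
  have h2 := hG i
  simp only [h1, mul_add, Finset.sum_add_distrib, mul_ite, mul_zero] at h2
  rw [Finset.sum_ite_eq' Finset.univ j0, if_pos (Finset.mem_univ _), hl, one_mul] at h2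
  unfold gB
  linear_combination -h2

lemma c2_eq (hx : x r = 1) (hl : l j0 = 1)
    (hE : ∀ j, ∑ m ∈ mons ι (e j + 2), c j m * mv x m = 0)
    (hG : ∀ i, ∑ j, l j * ∑ m ∈ mons ι (e j + 2), c j m * dv x i m = 0) (j : Fin s)
    (m : ι →₀ ℕ) : c2 e r j0 (uu e r j0 c) x l j m = c j m := by
  have h1 : ∀ m, c1 e r j0 (uu e r j0 c) x l j m =
      c j m - (if m = eA r (e j) then c j m else 0) := by
    intro m
    have h2 := decomp e r j0 c j m
    have h3 : (∑ i, if isB e r j0 j m i then gB e (uu e r j0 c) x l i else 0) =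
        ∑ i, if isB e r j0 j m i then c j m else 0 := by
      refine Finset.sum_congr rfl fun i _ => ?_
      split_ifs with h
      · rw [gB_eq e r j0 c x l hx hl hG i h.1, h.2.1, h.2.2]
      · rfl
    unfold c1
    rw [h3]
    linear_combination -h2
  unfold c2
  have h4 : ∑ m' ∈ mons ι (e j + 2), c1 e r j0 (uu e r j0 c) x l j m' * mv x m' =
      - c j (eA r (e j)) := by
    simp only [h1, sub_mul, Finset.sum_sub_distrib]
    rw [hE j, zero_sub]
    congr 1
    rw [Finset.sum_eq_single (eA r (e j))]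
    · rw [if_pos rfl]
      unfold eA
      rw [mv_single x r _ hx, mul_one]
    · intro b _ hb
      rw [if_neg hb, zero_mul]
    · intro h
      exact absurd (eA_mem r _) h
  rw [h4, h1]
  split_ifs with h
  · rw [h]
    ring
  · ring

end key

/-- the set of coefficients -/
noncomputable def VS : Finset ((_ : Fin s) × (ι →₀ ℕ)) :=
  Finset.univ.sigma (fun j => mons ι (e j + 2))

lemma mem_VS {j : Fin s} {m : ι →₀ ℕ} :
    (⟨j, m⟩ : (_ : Fin s) × (ι →₀ ℕ)) ∈ VS (ι := ι) e ↔ m ∈ mons ι (e j + 2) := by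
  unfold VS
  rw [Finset.mem_sigma]
  simp

/-- the set of parameters -/
noncomputable def PS : Finset ((_ : Fin s) × (ι →₀ ℕ)) :=
  (VS (ι := ι) e).erase ⟨j0, eA r (e j0)⟩

lemma card_PS : Fintype.card (PS e r j0) < Fintype.card (VS (ι := ι) e) := by
  rw [Fintype.card_coe, Fintype.card_coe]
  exact Finset.card_erase_lt_of_mem ((mem_VS e).2 (eA_mem r _))

lemma mem_PS {j : Fin s} {m : ι →₀ ℕ} (h : m ∈ mons ι (e j + 2))
    (h1 : ¬ (j = j0 ∧ m = eA r (e j0))) :
    (⟨j, m⟩ : (_ : Fin s) × (ι →₀ ℕ)) ∈ PS e r j0 := by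
  unfold PS
  rw [Finset.mem_erase]
  refine ⟨?_, (mem_VS e).2 h⟩
  intro h2
  apply h1
  have h3 := congrArg Sigma.fst h2
  have h4 : m = eA r (e j0) := by
    have := Sigma.mk.inj_iff.1 h2
    exact eq_of_heq this.2
  exact ⟨h3, h4⟩

/-- generic parameters -/
noncomputable def UU : Fin s → (ι →₀ ℕ) → MvPolynomial (PS e r j0) ℚ := fun j m =>
  if h : (⟨j, m⟩ : (_ : Fin s) × (ι →₀ ℕ)) ∈ PS e r j0 ∧ ¬ spec e r j0 j m then X ⟨_, h.1⟩ else 0

/-- generic parameters -/
noncomputable def XX : ι → MvPolynomial (PS e r j0) ℚ := fun i =>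
  if h : (⟨j0, eB r (e j0) i⟩ : (_ : Fin s) × (ι →₀ ℕ)) ∈ PS e r j0 ∧ i ≠ r then X ⟨_, h.1⟩ else 1

/-- generic parameters -/
noncomputable def LL : Fin s → MvPolynomial (PS e r j0) ℚ := fun j =>
  if h : (⟨j, eA r (e j)⟩ : (_ : Fin s) × (ι →₀ ℕ)) ∈ PS e r j0 then X ⟨_, h⟩ else 1

/-- the generic solution -/
noncomputable def phi : MvPolynomial (VS (ι := ι) e) ℚ →ₐ[ℚ] MvPolynomial (PS e r j0) ℚ :=
  aeval fun v => c2 e r j0 (UU e r j0) (XX e r j0) (LL e r j0) v.1.1 v.1.2

section point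
variable {K : Type*} [Field K] [CharZero K] (c : Fin s → (ι →₀ ℕ) → K)
  (x : ι → K) (l : Fin s → K)

/-- the point of the parameter space -/
noncomputable def pt : PS e r j0 → K := fun v =>
  if v.1.2 = eA r (e v.1.1) then l v.1.1 else
    if h : ∃ i, isB e r j0 v.1.1 v.1.2 i then x h.choose else c v.1.1 v.1.2

lemma pt_UU (hc : ∀ j m, m ∉ mons ι (e j + 2) → c j m = 0) (j : Fin s) (m : ι →₀ ℕ) :
    aeval (pt e r j0 c x l) (UU e r j0 j m) = uu e r j0 c j m := by
  unfold UU uu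
  by_cases h1 : spec e r j0 j m
  · rw [if_pos h1, dif_neg (fun h => h.2 h1), map_zero]
  · rw [if_neg h1]
    by_cases h2 : m ∈ mons ι (e j + 2)
    · have h3 : (⟨j, m⟩ : (_ : Fin s) × (ι →₀ ℕ)) ∈ PS e r j0 := by
        refine mem_PS e r j0 h2 ?_
        rintro ⟨h3, h4⟩
        subst h3
        exact h1 (Or.inl h4)
      rw [dif_pos ⟨h3, h1⟩, aeval_X]
      unfold pt
      rw [if_neg (fun h => h1 (Or.inl h)), dif_neg (fun h => h1 (Or.inr h))]
    · have h3 : (⟨j, m⟩ : (_ : Fin s) × (ι →₀ ℕ)) ∉ PS e r j0 := by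
        intro h
        exact h2 ((mem_VS e).1 (Finset.mem_of_mem_erase h))
      rw [dif_neg (fun h => h3 h.1), map_zero, hc j m h2]

lemma pt_XX (hx : x r = 1) (i : ι) :
    aeval (pt e r j0 c x l) (XX e r j0 i) = x i := by
  unfold XX
  by_cases h1 : i = r
  · rw [dif_neg (fun h => h.2 h1), map_one, h1, hx]
  · have h3 : (⟨j0, eB r (e j0) i⟩ : (_ : Fin s) × (ι →₀ ℕ)) ∈ PS e r j0 := by
      refine mem_PS e r j0 (eB_mem r _ i) ?_
      rintro ⟨_, h4⟩
      exact eA_ne _ _ h1 h4.symm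
    rw [dif_pos ⟨h3, h1⟩, aeval_X]
    have h4 : isB e r j0 j0 (eB r (e j0) i) i := ⟨h1, rfl, rfl⟩
    have h5 : ∃ i', isB e r j0 j0 (eB r (e j0) i) i' := ⟨i, h4⟩
    unfold pt
    rw [if_neg (fun h => eA_ne _ _ h1 h.symm), dif_pos h5,
      isB_unique e r j0 h5.choose_spec h4]

lemma pt_LL (hl : l j0 = 1) (j : Fin s) :
    aeval (pt e r j0 c x l) (LL e r j0 j) = l j := by
  unfold LL
  by_cases h1 : j = j0
  · subst h1
    have h3 : (⟨j, eA r (e j)⟩ : (_ : Fin s) × (ι →₀ ℕ)) ∉ PS e r j := by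
      unfold PS
      exact Finset.notMem_erase _ _
    rw [dif_neg h3, map_one, hl]
  · have h3 : (⟨j, eA r (e j)⟩ : (_ : Fin s) × (ι →₀ ℕ)) ∈ PS e r j0 :=
      mem_PS e r j0 (eA_mem r _) fun h => h1 h.1
    rw [dif_pos h3, aeval_X]
    unfold pt
    exact if_pos rfl

lemma pt_phi (hc : ∀ j m, m ∉ mons ι (e j + 2) → c j m = 0) (hx : x r = 1) (hl : l j0 = 1)
    (hE : ∀ j, ∑ m ∈ mons ι (e j + 2), c j m * mv x m = 0)
    (hG : ∀ i, ∑ j, l j * ∑ m ∈ mons ι (e j + 2), c j m * dv x i m = 0)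
    (D : MvPolynomial (VS (ι := ι) e) ℚ) (hD : phi e r j0 D = 0) :
    aeval (fun v : VS (ι := ι) e => c v.1.1 v.1.2) D = 0 := by
  have h1 : (aeval (pt e r j0 c x l)).comp (phi e r j0) =
      aeval (fun v : VS (ι := ι) e => c v.1.1 v.1.2) := by
    apply MvPolynomial.algHom_ext
    intro v
    rw [AlgHom.comp_apply]
    unfold phi
    rw [aeval_X, aeval_X]
    have h2 := map_c2 e r j0 ((aeval (pt e r j0 c x l) : MvPolynomial (PS e r j0) ℚ →ₐ[ℚ] K) :
      MvPolynomial (PS e r j0) ℚ →+* K) (UU e r j0) (XX e r j0) (LL e r j0) v.1.1 v.1.2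
    rw [RingHom.coe_coe] at h2
    rw [h2]
    simp only [pt_XX e r j0 c x l hx, pt_LL e r j0 c x l hl, pt_UU e r j0 c x l hc]
    exact c2_eq e r j0 c x l hx hl hE hG _ _
  rw [← h1, AlgHom.comp_apply, hD, map_zero]

end point

/-- scaling of a monomial -/
lemma mv_smul {K : Type*} [Field K] (t : K) (x : ι → K) (m : ι →₀ ℕ) :
    mv (fun i => t * x i) m = t ^ (∑ i, m i) * mv x m := by
  unfold mv
  simp only [mul_pow]
  rw [Finset.prod_mul_distrib, Finset.prod_pow_eq_pow_sum]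

lemma dv_smul {K : Type*} [Field K] (t : K) (x : ι → K) (i : ι) (n : ℕ) (m : ι →₀ ℕ)
    (hm : m ∈ mons ι (n + 2)) :
    dv (fun i => t * x i) i m = t ^ (n + 1) * dv x i m := by
  unfold dv
  rw [mv_smul]
  by_cases h : m i = 0
  · rw [h, Nat.cast_zero, mul_zero, mul_zero, mul_zero]
  · have h1 : ∑ k, (m - Finsupp.single i 1 : ι →₀ ℕ) k = n + 1 := by
      have h2 : (m - Finsupp.single i 1) + Finsupp.single i 1 = m :=
        tsub_add_cancel_of_le (Finsupp.single_le_iff.2 (Nat.one_le_iff_ne_zero.2 h))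
      have h3 := mem_mons.1 hm
      rw [← h2] at h3
      simp only [Finsupp.add_apply] at h3
      rw [Finset.sum_add_distrib, sum_single] at h3
      omega
    rw [h1]
    ring

theorem exists_D : ∃ D : MvPolynomial (VS (ι := ι) e) ℚ, D ≠ 0 ∧
    ∀ f : Fin s → MvPolynomial ι ℤ, (∀ j, (f j).IsHomogeneous (e j + 2)) → ¬ SmoothS f →
      eval (fun v : VS (ι := ι) e => (((f v.1.1).coeff v.1.2 : ℤ) : ℚ)) D = 0 := by
  have h0 : ∀ p : ι × Fin s, ∃ D : MvPolynomial (VS (ι := ι) e) ℚ, D ≠ 0 ∧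
      phi e p.1 p.2 D = 0 := fun p => exists_ker (card_PS e p.1 p.2) (phi e p.1 p.2)
  choose D hD0 hD using h0
  refine ⟨∏ p, D p, Finset.prod_ne_zero_iff.2 fun p _ => hD0 p, ?_⟩
  intro f hf hns
  unfold SmoothS at hns
  push Not at hns
  obtain ⟨K, _, _, x, l, hx, hl, hE, hG⟩ := hns
  obtain ⟨r, hr⟩ := Function.ne_iff.1 hx
  obtain ⟨j0, hj⟩ := Function.ne_iff.1 hl
  rw [Pi.zero_apply] at hr hj
  rw [map_prod]
  refine Finset.prod_eq_zero (Finset.mem_univ (r, j0)) ?_
  set t : K := (x r)⁻¹ with ht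
  have ht0 : t ≠ 0 := inv_ne_zero hr
  set x' : ι → K := fun i => t * x i with hx'
  set l' : Fin s → K := fun j => (l j * (t ^ (e j + 1))⁻¹) * (l j0 * (t ^ (e j0 + 1))⁻¹)⁻¹
    with hl'
  have hw : l j0 * (t ^ (e j0 + 1))⁻¹ ≠ 0 := mul_ne_zero hj (inv_ne_zero (pow_ne_zero _ ht0))
  have h1 := pt_phi e r j0 (fun j m => (((f j).coeff m : ℤ) : K)) x' l'
    (fun j m hm => by rw [coeff_out (hf j) hm, Int.cast_zero])
    (by rw [hx']; exact inv_mul_cancel₀ hr)
    (by rw [hl']; exact mul_inv_cancel₀ hw)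
    (fun j => by
      have h2 := hE j
      rw [aeval_f (hf j)] at h2
      have h3 : ∀ m ∈ mons ι (e j + 2), (((f j).coeff m : ℤ) : K) * mv x' m =
          t ^ (e j + 2) * ((((f j).coeff m : ℤ) : K) * mv x m) := by
        intro m hm
        rw [hx', mv_smul, mem_mons.1 hm]
        ring
      rw [Finset.sum_congr rfl h3, ← Finset.mul_sum, h2, mul_zero])
    (fun i => by
      have h2 := hG i
      have h3 : ∀ j, l' j * ∑ m ∈ mons ι (e j + 2), (((f j).coeff m : ℤ) : K) * dv x' i m =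
          (l j0 * (t ^ (e j0 + 1))⁻¹)⁻¹ * (l j * aeval x (pderiv i (f j))) := by
        intro j
        rw [aeval_df (hf j)]
        have h4 : ∀ m ∈ mons ι (e j + 2), (((f j).coeff m : ℤ) : K) * dv x' i m =
            t ^ (e j + 1) * ((((f j).coeff m : ℤ) : K) * dv x i m) := by
          intro m hm
          rw [hx', dv_smul t x i (e j) m hm]
          ring
        rw [Finset.sum_congr rfl h4, ← Finset.mul_sum, hl']
        have h5 : t ^ (e j + 1) ≠ 0 := pow_ne_zero _ ht0
        have h6 : (t ^ (e j + 1))⁻¹ * t ^ (e j + 1) = 1 := inv_mul_cancel₀ h5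
        linear_combination ((l j) * (l j0 * (t ^ (e j0 + 1))⁻¹)⁻¹ *
          (∑ m ∈ mons ι (e j + 2), (((f j).coeff m : ℤ) : K) * dv x i m)) * h6
      rw [Finset.sum_congr rfl (fun j _ => h3 j), ← Finset.mul_sum, h2, mul_zero])
    (D (r, j0)) (hD (r, j0))
  have h2 : (algebraMap ℚ K) (eval (fun v : VS (ι := ι) e =>
      (((f v.1.1).coeff v.1.2 : ℤ) : ℚ)) (D (r, j0))) = 0 := by
    rw [← h1]
    have h3 : (fun v : VS (ι := ι) e => (((f v.1.1).coeff v.1.2 : ℤ) : K)) =
        fun v : VS (ι := ι) e => algebraMap ℚ K (((f v.1.1).coeff v.1.2 : ℤ) : ℚ) := by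
      funext v
      rw [eq_ratCast, Rat.cast_intCast]
    have h4 := MvPolynomial.aeval_algebraMap_apply (A := ℚ) (B := K)
      (fun v : VS (ι := ι) e => (((f v.1.1).coeff v.1.2 : ℤ) : ℚ)) (D (r, j0))
    rw [h3]
    exact h4.symm
  exact (map_eq_zero (algebraMap ℚ K)).1 h2

end forms

open scoped Classical in
theorem smooth_dense (ι : Type*) [Fintype ι] {s : ℕ} (e : Fin s → ℕ) :
    ∀ ε : ℝ, 0 < ε → ∃ H₀ : ℝ, ∀ H : ℝ, H₀ ≤ H →
    (((sysZ ι e H).filter (fun f => ¬ SmoothS f)).card : ℝ) ≤ ε * (sysZ ι e H).card := by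
  intro ε hε
  obtain ⟨D, hD0, hD⟩ := exists_D (ι := ι) e
  obtain ⟨C, hC0, hC⟩ := sz D hD0
  refine ⟨max 1 (C / ε), fun H hH => ?_⟩
  have hH1 : 1 ≤ H := (le_max_left _ _).trans hH
  have hH2 : C / ε ≤ H := (le_max_right _ _).trans hH
  have hH0 : 0 ≤ H := by linarith
  have h1 : ((sysZ ι e H).filter (fun f => ¬ SmoothS f)).card ≤
      ((Fintype.piFinset (fun _ : VS (ι := ι) e =>
        Finset.Icc (-((⌊H⌋₊ : ℕ) : ℤ)) (⌊H⌋₊ : ℕ))).filter
      (fun c => eval (fun v => ((c v : ℤ) : ℚ)) D = 0)).card := by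
    apply Finset.card_le_card_of_injOn (fun f v => (f v.1.1).coeff v.1.2)
    · intro f hf
      rw [Finset.mem_coe, Finset.mem_filter, mem_sysZ] at hf
      rw [Finset.mem_coe, Finset.mem_filter, Fintype.mem_piFinset]
      refine ⟨fun v => ?_, hD f (fun j => (hf.1 j).1) hf.2⟩
      have h2 := (hf.1 v.1.1).2 v.1.2
      rw [Finset.mem_Icc, ← abs_le]
      have h3 : (((f v.1.1).coeff v.1.2).natAbs : ℝ) ≤ H := by
        rw [Nat.cast_natAbs, Int.cast_abs]
        exact h2
      have h4 : ((f v.1.1).coeff v.1.2).natAbs ≤ ⌊H⌋₊ := Nat.le_floor h3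
      rw [Int.abs_eq_natAbs]
      exact_mod_cast h4
    · intro f hf g hg hfg
      rw [Finset.mem_coe, Finset.mem_filter, mem_sysZ] at hf hg
      funext j
      apply MvPolynomial.ext
      intro m
      by_cases hm : m ∈ mons ι (e j + 2)
      · exact congrFun hfg ⟨⟨j, m⟩, (mem_VS e).2 hm⟩
      · rw [coeff_out (hf.1 j).1 hm, coeff_out (hg.1 j).1 hm]
  have h2 : ((sysZ ι e H).card : ℝ) = ((2 * ⌊H⌋₊ + 1 : ℕ) : ℝ) ^ Fintype.card (VS (ι := ι) e) := by
    rw [card_sysZ]
    simp only [card_formsZ _ hH0]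
    rw [Finset.prod_pow_eq_pow_sum, Fintype.card_coe]
    unfold VS
    rw [Finset.card_sigma]
    push_cast
    rfl
  have h3 := hC ⌊H⌋₊
  rw [← h2] at h3
  have h4 : H ≤ 2 * (⌊H⌋₊ : ℝ) + 1 := by
    have := Nat.lt_floor_add_one H
    have h5 : (1 : ℝ) ≤ (⌊H⌋₊ : ℝ) := by
      exact_mod_cast Nat.le_floor (by simpa using hH1)
    linarith
  have h5 : C ≤ ε * H := by
    rw [div_le_iff₀ hε] at hH2
    linarith
  have h6 : (((sysZ ι e H).filter (fun f => ¬ SmoothS f)).card : ℝ) * H ≤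
      (ε * (sysZ ι e H).card) * H := by
    calc (((sysZ ι e H).filter (fun f => ¬ SmoothS f)).card : ℝ) * H
        ≤ (((Fintype.piFinset (fun _ : VS (ι := ι) e =>
        Finset.Icc (-((⌊H⌋₊ : ℕ) : ℤ)) (⌊H⌋₊ : ℕ))).filter
      (fun c => eval (fun v => ((c v : ℤ) : ℚ)) D = 0)).card : ℝ) * (2 * (⌊H⌋₊ : ℝ) + 1) := by
          gcongr
      _ ≤ C * (sysZ ι e H).card := h3
      _ ≤ (ε * H) * (sysZ ι e H).card := by gcongr
      _ = _ := by ring
  exact le_of_mul_le_mul_right h6 (by linarith)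

end Pool.Agent.Y697.C13
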